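import Pool.Agent.Y666.SF.Full
import Pool.Agent.Y666.SF.Lex
import Pool.Agent.Y666.SF.Bridge
import Pool.Agent.Y666.SP.Part

/-!
# Spines of posets with finite antichains of filters and ideals

A filter `F` of a poset is separated from a filter `G` if some element of `F` is below all the
elements of `G`; dually for ideals.  A poset is end-finite if all families of pairwise
non-separated filters, and all families of pairwise non-separated ideals, are finite.  Posets of
finite width are end-finite, lexicographic sums of end-finite posets along arbitrary chains are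
end-finite (so end-finite posets may have infinite width), and every end-finite poset has a spine.
-/

set_option autoImplicit false

namespace Pool.Agent.Results.MP_6ec1b7_co.SpineEndFinite

/-- Every family of pairwise non-separated filters is finite, and every family of pairwise
non-separated ideals is finite. -/
def EndFinite (P : Type) [PartialOrder P] : Prop :=
  (∀ S : Set (Order.PFilter P),
    (∀ F ∈ S, ∀ G ∈ S, ¬ ∃ p ∈ F, ∀ q ∈ G, p < q) → S.Finite) ∧
  ∀ S : Set (Order.Ideal P),
    (∀ I ∈ S, ∀ J ∈ S, ¬ ∃ p ∈ J, ∀ q ∈ I, q < p) → S.Finite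

/-- There are a chain and a partition into antichains all of which meet the chain. -/
def HasSpine (P : Type) [PartialOrder P] : Prop :=
  ∃ C : Set P, IsChain (· ≤ ·) C ∧ ∃ A : Set (Set P), Setoid.IsPartition A ∧
    ∀ a ∈ A, IsAntichain (· ≤ ·) a ∧ (C ∩ a).Nonempty

/-- The width of `P` is at most `w`. -/
def WidthLE (P : Type) [PartialOrder P] (w : ℕ) : Prop :=
  ∀ s : Finset P, IsAntichain (· ≤ ·) (s : Set P) → s.card ≤ w

theorem tm_iff (P : Type) [PartialOrder P] : EndFinite P ↔ Pool.Agent.Y666.SF.Tm P :=
  ⟨fun h => ⟨Pool.Agent.Y666.SF.Y666.ff_of_pf h.1, Pool.Agent.Y666.SF.Y666.ffd_of_id h.2⟩,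
    fun h => ⟨Pool.Agent.Y666.SF.Y666.pf_of_ff h.1, Pool.Agent.Y666.SF.Y666.id_of_ffd h.2⟩⟩

/-- (1) Posets of finite width have spines. (2) They are end-finite. (3) Lexicographic sums of
end-finite posets along chains are end-finite. (4) End-finite posets have spines. -/
theorem result :
    (∀ (P : Type) [PartialOrder P] (w : ℕ), WidthLE P w → HasSpine P) ∧
    (∀ (P : Type) [PartialOrder P] (w : ℕ), WidthLE P w → EndFinite P) ∧
    (∀ (I : Type) [LinearOrder I] (P : I → Type) [∀ i, PartialOrder (P i)],
      (∀ i, EndFinite (P i)) → EndFinite (Σₗ i, P i)) ∧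
    ∀ (P : Type) [PartialOrder P], EndFinite P → HasSpine P := by
  have h2 : ∀ (P : Type) [PartialOrder P] (w : ℕ), WidthLE P w → EndFinite P :=
    fun P _ w hw => (tm_iff P).2 (Pool.Agent.Y666.SF.Y666.t_WID P w hw)
  have h4 : ∀ (P : Type) [PartialOrder P], EndFinite P → HasSpine P := fun P _ h =>
    Pool.Agent.Y666.SP.part_of_spine (Pool.Agent.Y666.SF.spine_of_tm ((tm_iff P).1 h))
  exact ⟨fun P _ w hw => h4 P (h2 P w hw), h2,
    fun I _ P _ h => (tm_iff _).2 (Pool.Agent.Y666.SF.Y666.tm_lex fun i => (tm_iff (P i)).1 (h i)),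
    h4⟩

end Pool.Agent.Results.MP_6ec1b7_co.SpineEndFinite
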